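import Pool.Agent.Lib.MP_cad5e4_lc.Main

open FirstOrder Cardinal

universe u

namespace Pool.Agent.Results.MP_cad5e4_lc.PowersetClosure

open Pool.Agent.Lib.MP_cad5e4_lc

/-- If `κ` is characterized by a complete `L_{ω₁,ω}`-sentence, then so is `2 ^ κ`. -/
theorem result (κ : Cardinal.{u}) (h : CompletelyCharacterizable κ) :
    CompletelyCharacterizable (2 ^ κ) :=
  main h

end Pool.Agent.Results.MP_cad5e4_lc.PowersetClosure
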